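import Pool.Agent.MWGQ.Stmts
import Pool.Agent.Helper10_MWGN.MC1

/-!
# Row MC1 of the table mwgq
-/

namespace Pool.Agent.Helper34_MWGQ

open Pool.Agent.Helper14_MV Pool.Agent.Helper2_MV
open Pool.Agent.MWK (pre)
open Pool.Agent.MWGQ
open Pool.Agent.MWGN (Nm WC WT Tau Ns nl sg nn N1 N2 K0 Kb Kc T2 gh mem_gh gh_succ McvStmt)
open Pool.Agent.MWGN.H10 (count_gh_le)

theorem count_pw (k : ℕ) (u : List ℕ) (c : ℕ) : (pw k u).count c = k * u.count c := by
  unfold pw
  induction k with
  | zero => simp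
  | succ k ih =>
    rw [List.replicate_succ, List.flatten_cons, List.count_append, ih]
    ring

theorem mc1 (hF : ForStmt) (hM : McvStmt) : Mc1Stmt := by
  rintro n hn τ m hT o' f p q hK ⟨hz, hz'⟩
  obtain ⟨H, hH, hL, -⟩ := (hF n τ m hT f).1 o'
  have hw := hH true
  rw [if_pos rfl] at hw
  set g : ℕ → List ℕ := fun i => if i < m then f (N1.L i) else
    if decide (i = m) = o' then f (N1.L m) else f (N1.L (m + 1)) with hg
  set h : ℕ → List ℕ := fun i => if i < m then pw (n + 1) (f (N1.C i)) else [] with hh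
  obtain ⟨w, hwd⟩ : ∃ w, w = p ++ (w0 n τ m true o').flatMap f ++ q := ⟨_, rfl⟩
  have hw2 : w = p ++ (f 0 ++ (f 1 ++ (f 2 ++ (f 0 ++ (gh g h (m + 2) ++ (f 1 ++ (H ++ q))))))) := by
    rw [hwd, hw]
    simp only [List.append_assoc]
  rw [← hwd] at hK
  have hgH : ∀ i < m + 2, ∀ c ∈ g i, c ∈ H := by
    intro i hi c hc
    have hex : ∃ i' ≤ m + 1, g i = f (N1.L i') := by
      simp only [hg]
      split
      · exact ⟨i, by omega, rfl⟩
      · split
        · exact ⟨m, by omega, rfl⟩
        · exact ⟨m + 1, le_rfl, rfl⟩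
    obtain ⟨i', hi', he⟩ := hex
    obtain ⟨H1, H2, h3⟩ := hL i' hi'
    rw [h3, ← he]
    simp [hc]
  have hhG : ∀ i < m + 2, ∀ c ∈ h i, 2 ≤ (gh g h (m + 2)).count c := by
    intro i hi c hc
    have h1 := count_gh_le g h c hi
    have h2 : 2 ≤ (h i).count c := by
      simp only [hh] at hc ⊢
      split at hc
      · rename_i hi'
        rw [if_pos hi', count_pw]
        have h3 := List.count_pos_iff.mpr hc
        rw [count_pw] at h3
        have h4 : 1 ≤ (f (N1.C i)).count c := by
          rcases Nat.eq_zero_or_pos ((f (N1.C i)).count c) with h5 | h5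
          · rw [h5] at h3
            omega
          · exact h5
        calc 2 = 2 * 1 := rfl
          _ ≤ (n + 1) * (f (N1.C i)).count c := Nat.mul_le_mul (by omega) h4
      · simp at hc
    omega
  have hG2 : ∀ c ∈ gh g h (m + 2), 2 ≤ w.count c := by
    intro c hc
    have hcG := List.count_pos_iff.mpr hc
    rw [mem_gh] at hc
    obtain ⟨i, hi, hc⟩ := hc
    rw [hw2]
    simp only [List.count_append]
    rcases hc with hc | hc
    · have := List.count_pos_iff.mpr (hgH i hi c hc)
      omega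
    · have := hhG i hi c hc
      omega
  have key := (hM (N2 m) m (m + 1) (by omega) le_rfl p (f 0) (f 1) (f 2) (gh g h (m + 2)) (H ++ q) w
    hw2 hG2 hK.1.c2 hz hz' g h rfl (fun i hi c hc => by simp [hgH i hi c hc]) hhG
    (fun h => by omega) (fun h => by omega)).2 m (by omega)
  simp [hh] at key

end Pool.Agent.Helper34_MWGQ
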